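import Pool.Agent.U282.RW.Lim

/-!
# MP_0f76a4_ag (Q1): the weights of the inertia invariants of the powers of a variety

`X` is a smooth rigid-analytic variety over a local field `K` with projective reduction, `F` a geometric
Frobenius element, `N` the monodromy operator on the cohomology groups `H^m(X)`; the residue field of `K`
has `q` elements. Let

* `r = 2 ∑ k * rank (N ^ k)`, for the operator `N` on the whole cohomology of `X`,
* `w = ∑ (wt α - m) ^ 2`, the sum over the eigenvalues `α` of `F` on the `H^m(X)`, `m ≥ 0`, where `wt α` is
  the weight of the `q`-Weil number `α`.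

Let `inv Y` be the number of all the eigenvalues of `F` on the kernels of `N` in the `H^m(Y)` (the inertia
invariants, if the inertia group acts unipotently; these are the reciprocal roots of the local Euler
factors), and `heavy Y` the number of those whose weight is more than `m`. The weight-monodromy
conjecture for `Y` implies `heavy Y = 0`.

*Theorem.*

1. The weight-monodromy conjecture holds for `X` if and only if `heavy (X × X) = 0`, that is, if for all `m`
   the eigenvalues of `F` on the kernel of `N` in `H^m(X × X)` have weights at most `m`.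
2. If it holds for `X`, then `heavy (X ^ n) = 0` for all `n ≥ 1`.
3. If it does not hold for `X`, then `r < w` and `heavy (X ^ n) / inv (X ^ n)` tends to
   `(1 - √(r / w)) / 2`, a positive number.
4. So it holds for `X` if for infinitely many `n` at most the share `1 / (4 w + 1)` of the eigenvalues of `F`
   on the kernels of `N` in the cohomology of `X ^ n` is too heavy.

For the proof see `Pool/Agent/U282/RW`: a string basis of the cohomology of `X` (`Str`), Poincaré duality
gives the identity `2 heavy + pred = inv + κ`, where `pred` is the number of the eigenvalues of weight `m` or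
`m + 1` on the `H^m` and `κ` is the number of the eigenvalues of weight `m + 1` on the kernels of `N`; the
asymptotics of `inv` and `pred` are the local limit theorem of the library `Pool/Agent/Y163/MW`, and
`κ = O(b ^ n / n)`, `b = dim H(X)` (`Sl`, `Cnt`, `Wrd`).
-/

set_option autoImplicit false

open Module Filter Topology

namespace Pool.Agent.Results.MP_0f76a4_ag.InvariantsOfPowers

universe u v w

open Pool.Agent.Y163.MW Pool.Agent.U644.RA Pool.Agent.U282.RW

variable {Ω : Type w} [Field Ω] [CharZero Ω] (T : RigidTheory.{u, v, w} Ω) (q : ℕ)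

/-- The power `X ^ (n + 1)`. -/
def power (X : T.Obj) (n : ℕ) : T.Obj := T.times X X n

/-- The number `r = 2 ∑ k * rank (N ^ k)`. -/
noncomputable def rankSum (X : T.Obj) : ℤ := (T.H X).totRankMoment

/-- The number `w`, the sum of the `(wt α - m) ^ 2`. -/
noncomputable def weightSum (X : T.Obj) : ℤ := (T.H X).totWeightMoment q

/-- The number of the eigenvalues of `F` on the kernels of `N` in the `H^m(Y)`. -/
noncomputable def inv (Y : T.Obj) : ℕ := (T.H Y).inv

/-- The number of those whose weight is more than `m`. -/
noncomputable def tooHeavy (Y : T.Obj) : ℕ := heavy (T.H Y) q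

/-- The limit law for the share of the heavy eigenvalues. -/
def Law (X : T.Obj) : Prop :=
  0 ≤ rankSum T X ∧ rankSum T X < weightSum T q X ∧
    Tendsto (fun n : ℕ => (tooHeavy T q (power T X n) : ℝ) / (inv T (power T X n) : ℝ)) atTop
      (𝓝 ((1 - √((rankSum T X : ℝ) / (weightSum T q X : ℝ))) / 2))

/-- For infinitely many `n` at most the share `1 / (4 w + 1)` is too heavy. -/
def FewHeavy (X : T.Obj) : Prop :=
  ∃ᶠ n : ℕ in atTop, (4 * weightSum T q X + 1) * tooHeavy T q (power T X n) ≤ inv T (power T X n)

/-- **The weights of the inertia invariants of the powers of a variety.** -/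
theorem result [IsAlgClosed Ω] (h : Facts T q) (X : T.Obj) :
    (T.WeightMonodromy q X ↔ T.Bounded q (T.prod X X)) ∧
    (T.WeightMonodromy q X → ∀ n, tooHeavy T q (power T X n) = 0) ∧
    (¬ T.WeightMonodromy q X → Law T q X) ∧
    (FewHeavy T q X → T.WeightMonodromy q X) := by
  refine ⟨square h X, none_heavy h X, law h X, fun hfew => ?_⟩
  by_contra hcon
  obtain ⟨h1, h2, h3⟩ := law h X hcon
  set r := (T.H X).totRankMoment with hr
  set w := (T.H X).totWeightMoment q with hw
  have hw0 : (0 : ℝ) < w := by
    have : 0 < w := lt_of_le_of_lt h1 h2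
    exact_mod_cast this
  have hrw : (r : ℝ) ≤ w - 1 := by
    have : r ≤ w - 1 := by omega
    exact_mod_cast this
  have h4 : √((r : ℝ) / w) ≤ 1 - 1 / (2 * w) := by
    have hw1 : (1 : ℝ) ≤ w := by
      have : 1 ≤ w := by omega
      exact_mod_cast this
    apply Real.sqrt_le_iff.2
    constructor
    · rw [sub_nonneg, div_le_one (by positivity)]
      linarith
    · have e : (1 - 1 / (2 * (w : ℝ))) ^ 2 = 1 - 1 / w + 1 / (2 * w) ^ 2 := by
        field_simp
        ring
      rw [e]
      have h5 : (r : ℝ) / w ≤ 1 - 1 / w := by
        rw [div_le_iff₀ hw0]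
        have : (1 - 1 / (w : ℝ)) * w = w - 1 := by field_simp
        rw [this]
        exact hrw
      have h6 : 0 ≤ 1 / (2 * (w : ℝ)) ^ 2 := by positivity
      linarith
  have h7 : 1 / (4 * (w : ℝ) + 1) < (1 - √((r : ℝ) / w)) / 2 := by
    have h8 : 1 / (4 * (w : ℝ) + 1) < 1 / (4 * w) :=
      one_div_lt_one_div_of_lt (by positivity) (by linarith)
    have h9 : 1 / (4 * (w : ℝ)) = (1 / (2 * w)) / 2 := by
      field_simp
      norm_num
    linarith
  have h10 := h3.eventually_const_lt h7
  obtain ⟨n, hn, hn'⟩ := (hfew.and_eventually h10).exists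
  have h11 : (0 : ℝ) < (T.H (T.times X X n)).inv := by
    rcases Nat.eq_zero_or_pos (T.H (T.times X X n)).inv with h0 | h0
    · rw [h0, Nat.cast_zero, div_zero] at hn'
      have : 0 < 1 / (4 * (w : ℝ) + 1) := by positivity
      exact absurd hn' (not_lt.2 this.le)
    · exact_mod_cast h0
  rw [div_lt_div_iff₀ (by positivity) h11, one_mul] at hn'
  have h12 : (4 * (w : ℝ) + 1) * heavy (T.H (T.times X X n)) q ≤ (T.H (T.times X X n)).inv := by
    exact_mod_cast hn
  linarith

end Pool.Agent.Results.MP_0f76a4_ag.InvariantsOfPowers
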