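import Pool.Agent.U644.RA.Main

/-!
# MP_0f76a4_ag (Q1): weight-monodromy for rigid-analytic varieties from Poincaré duality and Galois
invariants in odd degrees

Hard Lefschetz is not known for rigid-analytic varieties with projective reduction, so that the usual
duality of `H^m` with itself is not available. The theorem uses Poincaré duality only. See
`Pool/Agent/U644/RA/Defs.lean` for the definitions.
-/

set_option autoImplicit false

namespace Pool.Agent.Results.MP_0f76a4_ag.ProjectiveReduction

universe u v w

open Pool.Agent.U644.RA

variable {Ω : Type w} [Field Ω] [CharZero Ω] [IsAlgClosed Ω] (T : RigidTheory.{u, v, w} Ω) (q : ℕ)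

/-- The equivalences for one variety `X`, with `Y = X × Z ^ (dim X - 1)`. -/
def LocalForm (Z X : T.Obj) : Prop :=
  List.TFAE [T.WeightMonodromy q X,
    T.Bounded q (T.times X Z (T.dim X - 1)),
    T.Stably q (T.NoInvariants q) (T.times X Z (T.dim X - 1)),
    T.Stably q (T.NoFirstCohomology q) (T.times X Z (T.dim X - 1))]

/-- The equivalences for all varieties. -/
def GlobalForm : Prop :=
  List.TFAE [∀ X, T.WeightMonodromy q X, ∀ Y, T.Bounded q Y, ∀ Y, T.NoInvariants q Y,
    ∀ Y, T.NoFirstCohomology q Y]

theorem result (Z : T.Obj) (h : T.Known q Z) : (∀ X, LocalForm T q Z X) ∧ GlobalForm T q :=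
  ⟨fun X => RigidTheory.local_form h X, RigidTheory.global_form h⟩

end Pool.Agent.Results.MP_0f76a4_ag.ProjectiveReduction
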