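import Pool.Agent.U865.KT.Main

/-!
# MP_0f76a4_ag: rigid-analytic varieties with strictly semistable models and projective reduction
-/

set_option autoImplicit false

open Module

universe u v

namespace Pool.Agent.Results.MP_0f76a4_ag.StrictlySemistableModels

open Pool.Agent.Y143 Pool.Agent.Helper60K9.KL Pool.Agent.U865.LS Pool.Agent.U865.KT

/-- Let `X` be a smooth rigid-analytic variety of dimension `n` over a `p`-adic field with residue
field with `q` elements, with a strictly semistable formal model with projective special fibre, given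
by the `ℓ`-adic cohomology of the strata `Y^(m)` of the special fibre, with the groups `A` of the
classes of components and divisors, and by the weight spectral sequence. The hard Lefschetz theorem
for `X` is not assumed.

1. `H^k` is mw pure for `k ≤ 1` and `k ≥ 2 n - 1`. `H^2` and `H^(2n-2)` are mw pure iff `PrimGysin`
   holds for `H^1(Y^(2)) → H^3(Y^(1))`. For `n = 3`, `H^3` is mw pure iff `DivCrit` holds.
2. In the middle degree the graded pieces `gr_b` of the monodromy filtration of `H^n` with
   `|b| ≥ n - 1` are pure of weight `n + b`; and `H^n` is mw pure if the strata are small.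
3. Let `k ≤ n` and let the strata be small in the degrees up to `k - 1`. Then, for `e ≥ 1`, the map
   `N^e` from the weight `k + e` to the weight `k - e` is injective on the graded pieces of the weight
   filtration of `H^k`, the kernel of `N` on `H^k` has weights at most `k`, and `N^e` is surjective
   on the graded pieces of `H^(2n-k)`. -/
theorem result {Ω : Type u} [Field Ω] [CharZero Ω] [IsAlgClosed Ω] {Γ : Type} {n q : ℕ}
    (hq : 1 < q) (X : SemistableModel.{u, v} Ω Γ n q) (A : DivisorClasses X.toSpecialFibre) :
    ((∀ k : ℕ, k ≤ 1 ∨ 2 * n ≤ k + 1 → IsMWPure q k (X.actV k X.frob) (X.N k)) ∧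
      (∀ k : ℕ, k = 2 ∨ k + 2 = 2 * n →
        (IsMWPure q k (X.actV k X.frob) (X.N k) ↔ PrimGysin X.toSpecialFibre 0)) ∧
      (n = 3 → (IsMWPure q 3 (X.actV 3 X.frob) (X.N 3) ↔ DivCrit X.toSpecialFibre 0))) ∧
    (PureFrom q n (X.actV n X.frob) (X.N n) (n - 1) ∧
      (SmallStrata A n → IsMWPure q n (X.actV n X.frob) (X.N n))) ∧
    (∀ k : ℕ, k ≤ n → SmallStrata A k →
      (∀ e : ℕ, 1 ≤ e → GrInj X k e ∧ GrSurj X (2 * n - k) e) ∧
        ∀ v, X.N k v = 0 → v ∈ X.W k k) := by
  refine ⟨⟨fun k hk => mwPure_of_kato k (kato_outer A k hk), fun k hk => ?_, fun hn => ?_⟩,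
    ⟨outer_middle A, fun h => mwPure_of_kato n (kato_small A h)⟩, fun k hk h => ?_⟩
  · rw [← kato_iff_mwPure hq]
    exact kato_two_iff A k hk
  · subst hn
    rw [← katoAt_three A]
    exact (kato_iff_mwPure hq 3).symm
  · have h1 := grInj_small A k hk h
    exact ⟨fun e he => ⟨h1 e he, (grInj_dual X k (2 * n - k) e (by omega)).1 (h1 e he)⟩,
      ker_le k h1⟩

end Pool.Agent.Results.MP_0f76a4_ag.StrictlySemistableModels
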