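import Pool.Agent.U865.TC.TP

/-!
# MP_0f76a4_ag: the Frobenius eigenvalues which are powers of `q`
-/

set_option autoImplicit false

universe u v

namespace Pool.Agent.Results.MP_0f76a4_ag.TateEigenvalues

open Pool.Agent.Y143 Pool.Agent.Helper60K9.KL Pool.Agent.U865.KT Pool.Agent.U865.TC

/-- Let `X` be a smooth rigid-analytic variety of dimension `n` over a `p`-adic field with residue
field with `q` elements, with a strictly semistable formal model with projective special fibre, given
by the `ℓ`-adic cohomology of the strata `Y^(m)` of the special fibre, with the groups `A` of the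
classes of components and divisors, and by the weight spectral sequence. `TatePure q k` for `H^k`
says that the question has a positive answer for the eigenvalues which are powers of `q`: `q ^ s` is
an eigenvalue of the Frobenius on the graded piece `gr_b` of the monodromy filtration of `H^k` only
if `2 s = k + b`.

1. This is so for `H^k` and `H^(2n-k)`, `k ≤ n`, if `k = n` or the hard Lefschetz theorem holds for
   `X`, and if for all `a ≥ 0`, `r ≥ 1` with `k = 2 r + a + 1` the classes in `H^(2r)(Y^(a+1))` with
   Frobenius eigenvalue `q ^ r` are tame. For `r = 1` they are tame if their restrictions to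
   `Y^(a+2)` are those of divisors (Tate's conjecture for the divisors on `Y^(a+1)`), or if `DivCrit`
   holds.
2. This is so for all `H^m` if `n ≤ 3`, or `n = 4` and the hard Lefschetz theorem holds for `X`, and
   if Tate's conjecture for divisors is true for the strata of dimension at least three. -/
theorem result {Ω : Type u} [Field Ω] [CharZero Ω] [IsAlgClosed Ω] {Γ : Type} {n q : ℕ}
    (hq : 1 < q) (X : SemistableModel.{u, v} Ω Γ n q) (A : DivisorClasses X.toSpecialFibre)
    (hR : HasRelation X) :
    (∀ k : ℕ, k ≤ n → (k = n ∨ X.toStrataData.HasHardLefschetz n) →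
      (∀ a r : ℕ, k = 2 * r + (a + 1) → 1 ≤ r →
        TateTame A a r ∨ (r = 1 ∧ (TateDivisors A a ∨ DivCrit X.toSpecialFibre a))) →
      TatePure q k (X.actV k X.frob) (X.N k) ∧
        TatePure q ((2 * n - k : ℕ) : ℤ) (X.actV (2 * n - k) X.frob) (X.N (2 * n - k))) ∧
    ((n ≤ 3 ∨ (n = 4 ∧ X.toStrataData.HasHardLefschetz n)) →
      (∀ a, a + 3 ≤ n → TateDivisors A a) →
        ∀ m : ℕ, TatePure q m (X.actV m X.frob) (X.N m)) := by
  refine ⟨fun k hkn hL hT => tatePure_tame (A := A) hq hR k hkn hL fun a r h1 h2 => ?_,
    fun hn hT m => tatePure_all (A := A) hq hR hn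
      (fun a ha => tateTame_of_divisors (hT a ha)) m⟩
  rcases hT a r h1 h2 with hT | ⟨rfl, hT | hT⟩
  · exact hT
  · exact tateTame_of_divisors hT
  · exact tateTame_of_crit hT

end Pool.Agent.Results.MP_0f76a4_ag.TateEigenvalues
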